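import Mathlib

namespace Pool.Agent.Lib_helper83.ORD

set_option linter.unusedSectionVars false
set_option linter.style.haveILetI false

open Subgroup

variable {G : Type*} [Group G]

/-- weight (cross number) of a list of group elements -/
noncomputable def wt (L : List G) : ℚ := (L.map (fun g => (1:ℚ) / orderOf g)).sum

@[simp] lemma wt_nil : wt ([] : List G) = 0 := by simp [wt]
@[simp] lemma wt_cons (g : G) (L : List G) : wt (g :: L) = 1 / orderOf g + wt L := by simp [wt]
lemma wt_append (L M : List G) : wt (L ++ M) = wt L + wt M := by simp [wt]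

/-- `L` contains a light block into `C`: a nonempty index-ordered subsequence with product in `C`
and weight at most `1 / |C|` -/
def Blk (C : Subgroup G) (L : List G) : Prop :=
  ∃ K : List G, K.Sublist L ∧ K ≠ [] ∧ K.prod ∈ C ∧ wt K * Nat.card C ≤ 1

lemma Blk.mono {C : Subgroup G} {L M : List G} (h : Blk C L) (hs : L.Sublist M) : Blk C M := by
  obtain ⟨K, h1, h2, h3, h4⟩ := h
  exact ⟨K, h1.trans hs, h2, h3, h4⟩

lemma blk_of_mem [Finite G] {C : Subgroup G} {g : G} {L : List G} (h : g ∈ L)
    (hg : zpowers g = C) : Blk C L := by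
  subst hg
  refine ⟨[g], List.singleton_sublist.mpr h, by simp, by simp, ?_⟩
  rw [Nat.card_zpowers]
  have : (0:ℚ) < orderOf g := by exact_mod_cast orderOf_pos g
  simp only [wt_cons, wt_nil, add_zero]
  rw [one_div_mul_cancel this.ne']

/-- extraction of the blocks -/
lemma extract {D : Subgroup G} : ∀ Ls : List (List G), (∀ l ∈ Ls, Blk D l) →
    ∃ Ks : List (List G), Ks.length = Ls.length ∧ Ks.flatten.Sublist Ls.flatten ∧
      ∀ K ∈ Ks, K ≠ [] ∧ K.prod ∈ D ∧ wt K * Nat.card D ≤ 1 := by
  intro Ls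
  induction Ls with
  | nil => intro _; exact ⟨[], rfl, by simp, by simp⟩
  | cons l Ls ih =>
    intro h
    obtain ⟨Ks, h1, h2, h3⟩ := ih (fun l' hl' => h l' (List.mem_cons_of_mem _ hl'))
    obtain ⟨K, k1, k2, k3, k4⟩ := h l (List.mem_cons_self)
    refine ⟨K :: Ks, by simp [h1], ?_, ?_⟩
    · simpa using k1.append h2
    · intro K' hK'
      rcases List.mem_cons.mp hK' with rfl | h'
      · exact ⟨k2, k3, k4⟩
      · exact h3 K' h'

lemma wt_flatten_le {D : Subgroup G} : ∀ Ks : List (List G),
    (∀ K ∈ Ks, wt K * Nat.card D ≤ 1) → wt Ks.flatten * Nat.card D ≤ Ks.length := by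
  intro Ks
  induction Ks with
  | nil => intro _; simp
  | cons K Ks ih =>
    intro h
    have h1 := h K (List.mem_cons_self)
    have h2 := ih (fun K' hK' => h K' (List.mem_cons_of_mem _ hK'))
    simp only [List.flatten_cons, wt_append, add_mul, List.length_cons]
    push_cast
    linarith

lemma prod_flatten_mem {D : Subgroup G} : ∀ Ks : List (List G),
    (∀ K ∈ Ks, K.prod ∈ D) → Ks.flatten.prod ∈ D := by
  intro Ks
  induction Ks with
  | nil => intro _; simp
  | cons K Ks ih =>
    intro h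
    simp only [List.flatten_cons, List.prod_append]
    exact D.mul_mem (h K (List.mem_cons_self)) (ih (fun K' hK' => h K' (List.mem_cons_of_mem _ hK')))

/-- merging `|D| / |C|` interval-disjoint blocks into `D` gives a block into `C` -/
lemma merge [Finite G] {C D : Subgroup G} (hCD : C ≤ D) {p : ℕ} (hp : Nat.card D = p * Nat.card C)
    (Ls : List (List G)) (hL : Ls.length = p) (h : ∀ l ∈ Ls, Blk D l) : Blk C Ls.flatten := by
  obtain ⟨Ks, h1, h2, h3⟩ := extract Ls h
  have hlen : Ks.length = p := h1.trans hL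
  -- pigeonhole on prefix products
  have hC : 0 < Nat.card C := Nat.card_pos
  have hmem : ∀ i : ℕ, (Ks.take i).flatten.prod ∈ D := fun i =>
    prod_flatten_mem _ (fun K hK => (h3 K (List.mem_of_mem_take hK)).2.1)
  let f : Fin (p + 1) → (D ⧸ C.subgroupOf D) := fun i =>
    QuotientGroup.mk ⟨(Ks.take i).flatten.prod, hmem i⟩
  have hidx : Nat.card (D ⧸ C.subgroupOf D) = p := by
    have e1 : C.relIndex D * Nat.card C = Nat.card D := by
      have := relIndex_mul_relIndex (⊥ : Subgroup G) C D bot_le hCD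
      rw [relIndex_bot_left, relIndex_bot_left] at this
      rw [mul_comm]; exact this
    have : C.relIndex D = p := by
      rw [hp] at e1
      exact Nat.eq_of_mul_eq_mul_right hC e1
    rw [← this]; rfl
  letI : Fintype (D ⧸ C.subgroupOf D) := Fintype.ofFinite _
  have hcardlt : Fintype.card (D ⧸ C.subgroupOf D) < Fintype.card (Fin (p + 1)) := by
    rw [← Nat.card_eq_fintype_card, hidx, Fintype.card_fin]; omega
  obtain ⟨i, j, hij, hfij⟩ : ∃ i j : Fin (p + 1), i < j ∧ f i = f j := by
    obtain ⟨i, j, hne, he⟩ := Fintype.exists_ne_map_eq_of_card_lt f hcardlt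
    rcases lt_or_gt_of_ne hne with h' | h'
    · exact ⟨i, j, h', he⟩
    · exact ⟨j, i, h', he.symm⟩
  have hij' : (i : ℕ) < (j : ℕ) := hij
  have hjp : (j : ℕ) ≤ p := Nat.lt_succ_iff.mp j.isLt
  let Ms : List (List G) := (Ks.take j).drop i
  have hMs : (Ks.take j) = (Ks.take i) ++ Ms := by
    have : (Ks.take j).take i = Ks.take i := by
      rw [List.take_take, min_eq_left hij'.le]
    rw [← this]; exact (List.take_append_drop _ _).symm
  have hmemMs : ∀ K ∈ Ms, K ∈ Ks := fun K hK => List.mem_of_mem_take (List.mem_of_mem_drop hK)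
  have hMlen : Ms.length = j - i := by
    simp only [Ms, List.length_drop, List.length_take, hlen, min_eq_left hjp]
  have hprod : Ms.flatten.prod ∈ C := by
    have := QuotientGroup.eq.mp hfij
    rw [mem_subgroupOf] at this
    simp only [Subgroup.coe_mul, Subgroup.coe_inv] at this
    rw [hMs, List.flatten_append, List.prod_append, inv_mul_cancel_left] at this
    exact this
  refine ⟨Ms.flatten, ?_, ?_, hprod, ?_⟩
  · refine List.Sublist.trans ?_ h2
    have h5 : Ms.Sublist Ks := (List.drop_sublist _ _).trans (List.take_sublist _ _)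
    exact h5.flatten
  · have hne : Ms ≠ [] := by
      intro h0
      rw [h0] at hMlen
      simp at hMlen; omega
    obtain ⟨K, Ms', hK⟩ := List.exists_cons_of_ne_nil hne
    have hKm : K ∈ Ms := by rw [hK]; exact List.mem_cons_self
    have := (h3 K (hmemMs K hKm)).1
    rw [hK, List.flatten_cons]
    intro h0
    exact this (List.append_eq_nil_iff.mp h0).1
  · have h6 := wt_flatten_le (D := D) Ms (fun K hK => (h3 K (hmemMs K hK)).2.2)
    rw [hMlen, hp] at h6
    have h7 : (((j - i : ℕ)) : ℚ) ≤ p := by exact_mod_cast (by omega)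
    have hp0 : (0:ℚ) < p := by
      have : 0 < p := by omega
      exact_mod_cast this
    push_cast at h6
    have h8 : (p : ℚ) * (wt Ms.flatten * Nat.card C) ≤ p * 1 := by
      calc (p : ℚ) * (wt Ms.flatten * Nat.card C) = wt Ms.flatten * (p * Nat.card C) := by ring
        _ ≤ _ := h6
        _ ≤ p := h7
        _ = p * 1 := by ring
    exact le_of_mul_le_mul_left h8 hp0

/-- cutting a list into `p` consecutive pieces of length `N` -/
lemma cut (N : ℕ) : ∀ (p : ℕ) (L : List G), p * N ≤ L.length →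
    ∃ Ls : List (List G), Ls.length = p ∧ (∀ l ∈ Ls, l.length = N) ∧ Ls.flatten.Sublist L := by
  intro p
  induction p with
  | zero => intro L _; exact ⟨[], rfl, by simp, by simp⟩
  | succ p ih =>
    intro L hL
    rw [Nat.succ_mul] at hL
    obtain ⟨Ls, h1, h2, h3⟩ := ih (L.drop N) (by rw [List.length_drop]; omega)
    refine ⟨L.take N :: Ls, by simp [h1], ?_, ?_⟩
    · intro l hl
      rcases List.mem_cons.mp hl with rfl | h'
      · rw [List.length_take]; omega
      · exact h2 l h'
    · rw [List.flatten_cons]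
      conv_rhs => rw [← List.take_append_drop N L]
      exact (List.Sublist.refl _).append h3

/-- subgroups of a cyclic group are determined by their order -/
lemma eq_of_card_eq [Finite G] {A B M : Subgroup G} (hM : IsCyclic M) (hA : A ≤ M) (hB : B ≤ M)
    (h : Nat.card A = Nat.card B) : A = B := by
  classical
  haveI : Fintype G := Fintype.ofFinite G
  haveI := hM
  -- both are the kernel of the power map
  have key : ∀ A : Subgroup G, A ≤ M →
      (A : Set G) = (fun x : M => (x : G)) '' {x : M | x ^ (Nat.card A) = 1} := by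
    intro A hA
    have hsub : (A.subgroupOf M : Set M) ⊆ {x : M | x ^ (Nat.card A) = 1} := by
      intro x hx
      have hx' : (x : G) ∈ A := hx
      have h1 : (⟨(x:G), hx'⟩ : A) ^ Nat.card A = 1 := pow_card_eq_one'
      have h2 : (x : G) ^ Nat.card A = 1 := by
        have := congrArg (fun z : A => (z : G)) h1
        simpa only [Subgroup.coe_pow, Subgroup.coe_one] using this
      exact Subtype.ext h2
    have hcardA : Nat.card (A.subgroupOf M) = Nat.card A :=
      Nat.card_congr (Subgroup.subgroupOfEquivOfLe hA).toEquiv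
    have hle : (Set.toFinset {x : M | x ^ (Nat.card A) = 1}).card ≤ Nat.card A := by
      have := IsCyclic.card_pow_eq_one_le (α := M) (n := Nat.card A) Nat.card_pos
      convert this using 2
      ext x; simp
    have heq : (A.subgroupOf M : Set M) = {x : M | x ^ (Nat.card A) = 1} := by
      apply Set.eq_of_subset_of_card_le hsub
      rw [← Set.toFinset_card]
      refine hle.trans ?_
      rw [← hcardA, Nat.card_eq_fintype_card]
      exact le_of_eq (Fintype.card_congr (Equiv.refl _))
    rw [← heq]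
    ext x
    simp only [SetLike.mem_coe, Set.mem_image]
    constructor
    · intro hx; exact ⟨⟨x, hA hx⟩, hx, rfl⟩
    · rintro ⟨y, hy, rfl⟩; exact hy
  apply SetLike.coe_injective
  rw [key A hA, key B hB, h]

/-- `M` lies above `C` in the tree: `C ≤ M` and every prime factor of `|M| / |C|` is at most every
prime factor of `|C|` -/
def Anc (C M : Subgroup G) : Prop :=
  C ≤ M ∧ ∀ p q : ℕ, p.Prime → q.Prime → p ∣ Nat.card M / Nat.card C → q ∣ Nat.card C → p ≤ q

/-- `D` is a child of `C` -/
def Child (C D : Subgroup G) (p : ℕ) : Prop :=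
  C ≤ D ∧ IsCyclic D ∧ p.Prime ∧ Nat.card D = p * Nat.card C ∧
    ∀ q : ℕ, q.Prime → q ∣ Nat.card C → p ≤ q

lemma anc_refl [Finite G] (C : Subgroup G) : Anc C C := by
  refine ⟨le_refl _, ?_⟩
  intro p q hp _ h1 _
  rw [Nat.div_self Nat.card_pos] at h1
  exact absurd (Nat.dvd_one.mp h1) hp.one_lt.ne'

lemma anc_bot (M : Subgroup G) : Anc ⊥ M := by
  refine ⟨bot_le, ?_⟩
  intro p q _ hq _ h2
  rw [Subgroup.card_bot] at h2
  exact absurd (Nat.dvd_one.mp h2) hq.one_lt.ne'

/-- cards: writing `|M| = k |D|` -/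
lemma card_div [Finite G] {A B : Subgroup G} (h : A ≤ B) :
    Nat.card B = Nat.card B / Nat.card A * Nat.card A :=
  (Nat.div_mul_cancel (Subgroup.card_dvd_of_le h)).symm

lemma anc_of_child [Finite G] {C D M : Subgroup G} {p : ℕ} (h : Child C D p) (hM : Anc D M) :
    Anc C M ∧ M ≠ C := by
  obtain ⟨h1, h2, h3, h4, h5⟩ := h
  obtain ⟨m1, m2⟩ := hM
  have hC : 0 < Nat.card C := Nat.card_pos
  have hM := card_div m1
  set k := Nat.card M / Nat.card D with hk
  have hk0 : 0 < k := Nat.div_pos (Nat.le_of_dvd Nat.card_pos (Subgroup.card_dvd_of_le m1)) Nat.card_pos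
  have hMC : Nat.card M / Nat.card C = k * p := by
    rw [hM, h4, ← mul_assoc]
    exact Nat.mul_div_cancel _ hC
  refine ⟨⟨h1.trans m1, ?_⟩, ?_⟩
  · intro p' q hp' hq hd hq2
    rw [hMC] at hd
    rcases (Nat.Prime.dvd_mul hp').mp hd with h | h
    · exact m2 p' q hp' hq h (by rw [h4]; exact hq2.mul_left _)
    · rw [(Nat.prime_dvd_prime_iff_eq hp' h3).mp h]
      exact h5 q hq hq2
  · intro he
    rw [he, h4] at hM
    have h6 := h3.two_le
    have : Nat.card C < k * (p * Nat.card C) := by
      calc Nat.card C < 2 * Nat.card C := by omega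
        _ ≤ p * Nat.card C := Nat.mul_le_mul_right _ h6
        _ ≤ k * (p * Nat.card C) := Nat.le_mul_of_pos_left _ hk0
    omega

lemma child_prime_ge [Finite G] {C D M : Subgroup G} {p p' : ℕ} (h : Child C D p)
    (hM : Anc D M) (hp' : p'.Prime) (hd : p' ∣ Nat.card M / Nat.card C) : p' ≤ p := by
  obtain ⟨h1, h2, h3, h4, h5⟩ := h
  obtain ⟨m1, m2⟩ := hM
  have hC : 0 < Nat.card C := Nat.card_pos
  have hM := card_div m1
  set k := Nat.card M / Nat.card D with hk
  have hMC : Nat.card M / Nat.card C = k * p := by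
    rw [hM, h4, ← mul_assoc]
    exact Nat.mul_div_cancel _ hC
  rw [hMC] at hd
  rcases (Nat.Prime.dvd_mul hp').mp hd with h | h
  · exact m2 p' p hp' h3 h (by rw [h4]; exact Dvd.intro _ rfl)
  · exact ((Nat.prime_dvd_prime_iff_eq hp' h3).mp h).le

lemma child_prime_dvd [Finite G] {C D M : Subgroup G} {p : ℕ} (h : Child C D p)
    (hM : D ≤ M) : p ∣ Nat.card M / Nat.card C := by
  obtain ⟨h1, h2, h3, h4, h5⟩ := h
  have hC : 0 < Nat.card C := Nat.card_pos
  have hM := card_div hM
  rw [hM, h4, ← mul_assoc, Nat.mul_div_cancel _ hC]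
  exact Dvd.intro_left _ rfl

lemma child_unique [Finite G] {C D D' M : Subgroup G} {p p' : ℕ} (h : Child C D p)
    (h' : Child C D' p') (hc : IsCyclic M) (hM : Anc D M) (hM' : Anc D' M) : D = D' := by
  have e1 : p' ≤ p := child_prime_ge h hM h'.2.2.1 (child_prime_dvd h' hM'.1)
  have e2 : p ≤ p' := child_prime_ge h' hM' h.2.2.1 (child_prime_dvd h hM.1)
  have e : p = p' := le_antisymm e2 e1
  refine eq_of_card_eq hc hM.1 hM'.1 ?_
  rw [h.2.2.2.1, h'.2.2.2.1, e]

lemma child_exists [Finite G] {C : Subgroup G} {g : G} (h : Anc C (zpowers g))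
    (hne : zpowers g ≠ C) : ∃ D p, Child C D p ∧ Anc D (zpowers g) := by
  obtain ⟨h1, h2⟩ := h
  have hC : 0 < Nat.card C := Nat.card_pos
  have hcard := card_div h1
  set r := Nat.card (zpowers g) / Nat.card C with hr
  rw [Nat.card_zpowers] at hcard
  have hg : 0 < orderOf g := orderOf_pos g
  have hr1 : r ≠ 1 := by
    intro h0
    rw [h0, one_mul] at hcard
    apply hne
    symm
    apply Subgroup.eq_of_le_of_card_ge h1
    rw [Nat.card_zpowers, hcard]
  have hr0 : r ≠ 0 := by
    intro h0; rw [h0, zero_mul] at hcard; omega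
  -- the largest prime factor of r
  obtain ⟨p, hp, hpr, hmax⟩ : ∃ p, p.Prime ∧ p ∣ r ∧ ∀ q, q.Prime → q ∣ r → q ≤ p := by
    have hne' : r.primeFactors.Nonempty := by
      rw [Nat.nonempty_primeFactors]
      exact Nat.one_lt_iff_ne_zero_and_ne_one.mpr ⟨hr0, hr1⟩
    refine ⟨r.primeFactors.max' hne', ?_, ?_, ?_⟩
    · exact Nat.prime_of_mem_primeFactors (Finset.max'_mem _ hne')
    · exact Nat.dvd_of_mem_primeFactors (Finset.max'_mem _ hne')
    · intro q hq hqr
      exact Finset.le_max' _ _ (Nat.mem_primeFactors.mpr ⟨hq, hqr, hr0⟩)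
  obtain ⟨s, hs⟩ := hpr
  have hs0 : s ≠ 0 := by rintro rfl; simp at hs; exact hr0 hs
  have hsg : s ∣ orderOf g := by rw [hcard, hs]; exact ⟨p * Nat.card C, by ring⟩
  have hcardD : Nat.card (zpowers (g ^ s)) = p * Nat.card C := by
    rw [Nat.card_zpowers, orderOf_pow_of_dvd hs0 hsg, hcard, hs]
    rw [show p * s * Nat.card C = s * (p * Nat.card C) by ring]
    exact Nat.mul_div_cancel_left _ (Nat.pos_of_ne_zero hs0)
  have hCD : C ≤ zpowers (g ^ s) := by
    intro x hx
    obtain ⟨k, rfl⟩ := Subgroup.mem_zpowers_iff.mp (h1 hx)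
    have h3 : (g ^ k) ^ (Nat.card C) = 1 := by
      have h4 : (⟨g ^ k, hx⟩ : C) ^ Nat.card C = 1 := pow_card_eq_one'
      have := congrArg (fun z : C => (z : G)) h4
      simpa only [Subgroup.coe_pow, Subgroup.coe_one] using this
    rw [← zpow_natCast, ← zpow_mul] at h3
    have h5 : (orderOf g : ℤ) ∣ k * (Nat.card C : ℤ) := orderOf_dvd_iff_zpow_eq_one.mpr h3
    rw [hcard] at h5
    push_cast at h5
    have h6 : (r : ℤ) ∣ k := by
      have hC' : (Nat.card C : ℤ) ≠ 0 := by exact_mod_cast hC.ne'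
      exact Int.dvd_of_mul_dvd_mul_right hC' h5
    obtain ⟨t, ht⟩ := h6
    rw [Subgroup.mem_zpowers_iff]
    refine ⟨p * t, ?_⟩
    rw [← zpow_natCast, ← zpow_mul, ht, hs]
    congr 1; push_cast; ring
  refine ⟨zpowers (g ^ s), p, ⟨hCD, inferInstance, hp, hcardD, ?_⟩, ?_, ?_⟩
  · intro q hq hqC
    exact h2 p q hp hq ⟨s, hs⟩ hqC
  · exact Subgroup.zpowers_le.mpr (Subgroup.pow_mem _ (Subgroup.mem_zpowers g) s)
  · intro p' q hp' hq hd hqD
    rw [hcardD] at hd hqD
    rw [Nat.card_zpowers, hcard, hs] at hd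
    rw [show p * s * Nat.card C = s * (p * Nat.card C) by ring,
      Nat.mul_div_cancel _ (Nat.mul_pos hp.pos hC)] at hd
    have hd' : p' ∣ r := by rw [hs]; exact hd.mul_left _
    rcases (Nat.Prime.dvd_mul hq).mp hqD with h | h
    · rw [(Nat.prime_dvd_prime_iff_eq hq hp).mp h]
      exact hmax p' hp' hd'
    · exact h2 p' q hp' hq hd' h

end Pool.Agent.Lib_helper83.ORD
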