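import Mathlib
import Pool.Agent.Lib_helper83.ORD.Tree

namespace Pool.Agent.Lib_helper83.ORD

set_option linter.unusedSectionVars false
set_option linter.style.haveILetI false

open Subgroup

variable {G : Type*} [Group G]

/-- the price of a cyclic subgroup -/
noncomputable def cost (M : Subgroup G) : ℕ := Nat.card M - Nat.card M / (Nat.card M).minFac

/-- `F` is closed under passing to smaller nontrivial cyclic subgroups -/
def DownClosed (F : Set (Subgroup G)) : Prop :=
  ∀ C D : Subgroup G, C ≤ D → C ≠ ⊥ → IsCyclic D → D ∈ F → C ∈ F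

open Classical in
/-- cyclic subgroups in `F` above `C` in the tree -/
noncomputable def tree [Finite G] (F : Set (Subgroup G)) (C : Subgroup G) :
    Finset (Subgroup G) :=
  letI : Fintype (Subgroup G) := Fintype.ofFinite _
  Finset.univ.filter (fun M => IsCyclic M ∧ Anc C M ∧ M ∈ F)

variable (F : Set (Subgroup G))

lemma mem_tree [Finite G] {C M : Subgroup G} :
    M ∈ tree F C ↔ IsCyclic M ∧ Anc C M ∧ M ∈ F := by
  classical
  simp [tree]

noncomputable def Om [Finite G] (C : Subgroup G) : ℕ := ∑ M ∈ tree F C, cost M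

lemma cost_child [Finite G] {C D : Subgroup G} {p : ℕ} (h : Child C D p) :
    cost D = Nat.card C * (p - 1) := by
  obtain ⟨h1, h2, h3, h4, h5⟩ := h
  have hC : 0 < Nat.card C := Nat.card_pos
  have hmin : (Nat.card D).minFac = p := by
    have hne1 : Nat.card D ≠ 1 := by
      rw [h4]; intro h0
      have := h3.two_le
      have : p * Nat.card C ≥ 2 * 1 := Nat.mul_le_mul this hC
      omega
    apply le_antisymm
    · exact Nat.minFac_le_of_dvd h3.two_le (by rw [h4]; exact Dvd.intro _ rfl)
    · have hmp : ((Nat.card D).minFac).Prime := Nat.minFac_prime hne1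
      have hd : (Nat.card D).minFac ∣ p * Nat.card C := by rw [← h4]; exact Nat.minFac_dvd _
      rcases (Nat.Prime.dvd_mul hmp).mp hd with h | h
      · exact ((Nat.prime_dvd_prime_iff_eq hmp h3).mp h).ge
      · exact h5 _ hmp h
  rw [cost, hmin, h4, Nat.mul_div_cancel_left _ h3.pos, Nat.mul_sub, mul_one, mul_comm p]

lemma self_mem_tree [Finite G] {C : Subgroup G} (h : IsCyclic C) (hF : C ∈ F) :
    C ∈ tree F C :=
  (mem_tree F).mpr ⟨h, anc_refl C, hF⟩

/-- bound for the terms above one child -/
lemma child_bound [Finite G] {C D : Subgroup G} {p : ℕ} (h : Child C D p) (hDF : D ∈ F)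
    (ih : ∀ L : List G, (∀ g ∈ L, Anc D (zpowers g) ∧ zpowers g ∈ F) → ¬ Blk D L →
      Nat.card D * L.length + cost D ≤ Om F D)
    (L : List G) (hL : ∀ g ∈ L, Anc D (zpowers g) ∧ zpowers g ∈ F) (hB : ¬ Blk C L) :
    Nat.card C * L.length ≤ Om F D := by
  have hC : 0 < Nat.card C := Nat.card_pos
  have hD : 0 < Nat.card D := Nat.card_pos
  have hcost := cost_child h
  have hcle : cost D ≤ Om F D := Finset.single_le_sum (f := cost) (fun _ _ => Nat.zero_le _)
    (self_mem_tree F h.2.1 hDF)
  set w := Om F D - cost D with hw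
  set N := w / Nat.card D + 1 with hN
  have hDN : w < Nat.card D * N := by
    rw [hN]; exact Nat.lt_mul_div_succ w hD
  have hlen : L.length < p * N := by
    by_contra hcon
    push Not at hcon
    obtain ⟨Ls, l1, l2, l3⟩ := cut N p L hcon
    apply hB
    refine Blk.mono (merge h.1 h.2.2.2.1 Ls l1 ?_) l3
    intro l hl
    by_contra hcon2
    have hmem : ∀ g ∈ l, Anc D (zpowers g) ∧ zpowers g ∈ F := by
      intro g hg
      apply hL g
      apply l3.subset
      exact List.mem_flatten.mpr ⟨l, hl, hg⟩
    have := ih l hmem hcon2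
    rw [l2 l hl] at this
    omega
  have h1 : Nat.card C * L.length ≤ Nat.card C * (p * N - 1) :=
    Nat.mul_le_mul_left _ (by omega)
  have h2 : Nat.card C * (p * N - 1) = Nat.card D * (w / Nat.card D) + Nat.card C * (p - 1) := by
    have hp := h.2.2.1.pos
    have : p * N - 1 = p * (w / Nat.card D) + (p - 1) := by
      rw [hN, Nat.mul_add, mul_one]; omega
    rw [this, Nat.mul_add, h.2.2.2.1]; ring
  have h3 : Nat.card D * (w / Nat.card D) ≤ w := Nat.mul_div_le w _
  omega

/-- the main recursion -/
theorem tree_bound [Finite G] (hF : DownClosed F) (hbot : (⊥ : Subgroup G) ∈ F) :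
    ∀ (m : ℕ) (C : Subgroup G), IsCyclic C → C ∈ F →
    Nat.card G - Nat.card C ≤ m →
    ∀ L : List G, (∀ g ∈ L, Anc C (zpowers g) ∧ zpowers g ∈ F) → ¬ Blk C L →
      Nat.card C * L.length + cost C ≤ Om F C := by
  classical
  intro m
  induction m with
  | zero =>
    intro C hCc hCF hm L hL hB
    have hcle : cost C ≤ Om F C := Finset.single_le_sum (f := cost) (fun _ _ => Nat.zero_le _)
      (self_mem_tree F hCc hCF)
    have hle : Nat.card C ≤ Nat.card G := Subgroup.card_le_card_group C
    have hCtop : C = ⊤ := by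
      apply Subgroup.eq_top_of_card_eq
      omega
    have hnil : L = [] := by
      by_contra hne
      obtain ⟨g, L', rfl⟩ := List.exists_cons_of_ne_nil hne
      apply hB
      apply blk_of_mem (g := g) List.mem_cons_self
      have := (hL g List.mem_cons_self).1.1
      rw [hCtop] at this ⊢
      exact top_le_iff.mp this
    rw [hnil]; simpa using hcle
  | succ m ih =>
    intro C hCc hCF hm L hL hB
    have hne : ∀ g ∈ L, zpowers g ≠ C := fun g hg h => hB (blk_of_mem hg h)
    -- choose children
    have hex : ∀ g : G, ∃ D : Subgroup G, (Anc C (zpowers g) ∧ zpowers g ≠ C) →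
        ∃ p, Child C D p ∧ Anc D (zpowers g) := by
      intro g
      by_cases hg : Anc C (zpowers g) ∧ zpowers g ≠ C
      · obtain ⟨D, p, h1, h2⟩ := child_exists hg.1 hg.2
        exact ⟨D, fun _ => ⟨p, h1, h2⟩⟩
      · exact ⟨C, fun h => absurd h hg⟩
    choose ch hch using hex
    have hch' : ∀ g ∈ L, ∃ p, Child C (ch g) p ∧ Anc (ch g) (zpowers g) :=
      fun g hg => hch g ⟨(hL g hg).1, hne g hg⟩
    have hchF : ∀ g ∈ L, ch g ∈ F := by
      intro g hg
      obtain ⟨p, hp1, hp2⟩ := hch' g hg
      apply hF (ch g) (zpowers g) hp2.1 ?_ inferInstance (hL g hg).2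
      intro h0
      have h1 := hp1.2.2.2.1
      rw [h0, Subgroup.card_bot] at h1
      have h2 := hp1.2.2.1.two_le
      have h3 : 0 < Nat.card C := Nat.card_pos
      have : 2 * 1 ≤ p * Nat.card C := Nat.mul_le_mul h2 h3
      omega
    have hsum : L.length = ∑ D ∈ (L.map ch).toFinset, (L.filter (fun g => ch g = D)).length := by
      have := List.sum_toFinset_count_eq_length (L.map ch)
      rw [List.length_map] at this
      rw [← this]
      apply Finset.sum_congr rfl
      intro D _
      rw [List.count_eq_countP, List.countP_map, List.countP_eq_length_filter]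
      congr 1
    have hbound : ∀ D ∈ (L.map ch).toFinset,
        Nat.card C * (L.filter (fun g => ch g = D)).length ≤ Om F D := by
      intro D hD
      rw [List.mem_toFinset, List.mem_map] at hD
      obtain ⟨g0, hg0, rfl⟩ := hD
      obtain ⟨p, hp1, hp2⟩ := hch' g0 hg0
      apply child_bound F hp1 (hchF g0 hg0)
      · apply ih (ch g0) hp1.2.1 (hchF g0 hg0)
        have h1 : Nat.card C < Nat.card (ch g0) := by
          rw [hp1.2.2.2.1]
          have h2 := hp1.2.2.1.two_le
          have hC : 0 < Nat.card C := Nat.card_pos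
          calc Nat.card C < 2 * Nat.card C := by omega
            _ ≤ p * Nat.card C := Nat.mul_le_mul_right _ h2
        have h3 : Nat.card (ch g0) ≤ Nat.card G := Subgroup.card_le_card_group _
        omega
      · intro g hg
        have hg' := List.mem_filter.mp hg
        have he : ch g = ch g0 := by simpa using hg'.2
        obtain ⟨p', hp', hp''⟩ := hch' g hg'.1
        rw [← he]; exact ⟨hp'', (hL g hg'.1).2⟩
      · intro hb
        exact hB (hb.mono List.filter_sublist)
    have hdisj : (((L.map ch).toFinset : Finset (Subgroup G)) : Set (Subgroup G)).PairwiseDisjoint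
        (tree F) := by
      intro D hD D' hD' hne'
      rw [Function.onFun, Finset.disjoint_left]
      intro M hM hM'
      rw [mem_tree] at hM hM'
      rw [Finset.mem_coe, List.mem_toFinset, List.mem_map] at hD hD'
      obtain ⟨g0, hg0, rfl⟩ := hD
      obtain ⟨g1, hg1, rfl⟩ := hD'
      obtain ⟨p, hp1, hp2⟩ := hch' g0 hg0
      obtain ⟨p', hp1', hp2'⟩ := hch' g1 hg1
      exact hne' (child_unique hp1 hp1' hM.1 hM.2.1 hM'.2.1)
    have hsub : ((L.map ch).toFinset.biUnion (tree F)) ⊆ (tree F C).erase C := by
      intro M hM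
      rw [Finset.mem_biUnion] at hM
      obtain ⟨D, hD, hM⟩ := hM
      rw [List.mem_toFinset, List.mem_map] at hD
      obtain ⟨g0, hg0, rfl⟩ := hD
      obtain ⟨p, hp1, hp2⟩ := hch' g0 hg0
      rw [mem_tree] at hM
      have := anc_of_child hp1 hM.2.1
      rw [Finset.mem_erase, mem_tree]
      exact ⟨this.2, hM.1, this.1, hM.2.2⟩
    have h1 : Nat.card C * L.length ≤ ∑ D ∈ (L.map ch).toFinset, Om F D := by
      rw [hsum, Finset.mul_sum]
      exact Finset.sum_le_sum hbound
    have h2 : ∑ D ∈ (L.map ch).toFinset, Om F D ≤ ∑ M ∈ (tree F C).erase C, cost M := by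
      unfold Om
      rw [← Finset.sum_biUnion hdisj]
      exact Finset.sum_le_sum_of_subset hsub
    have h3 : ∑ M ∈ (tree F C).erase C, cost M + cost C = Om F C :=
      Finset.sum_erase_add _ _ (self_mem_tree F hCc hCF)
    omega

/-- every list without light product-one subsequence, with all terms in `F`, is short -/
theorem list_bound [Finite G] (hF : DownClosed F) (hbot : (⊥ : Subgroup G) ∈ F)
    (L : List G) (hL : ∀ g ∈ L, zpowers g ∈ F) (hB : ¬ Blk (⊥ : Subgroup G) L) :
    L.length ≤ Om F (⊥ : Subgroup G) := by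
  have h := tree_bound F hF hbot (Nat.card G) (⊥ : Subgroup G) (by infer_instance) hbot
    (Nat.sub_le _ _) L (fun g hg => ⟨anc_bot _, hL g hg⟩) hB
  rw [Subgroup.card_bot, one_mul] at h
  omega

end Pool.Agent.Lib_helper83.ORD
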