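import Mathlib
import Pool.Agent.Lib_helper83.ORD.Main
import Pool.Agent.Lib_helper15.KLReal

namespace Pool.Agent.Lib_helper83.ORD

set_option linter.unusedSectionVars false
set_option linter.style.haveILetI false

open Subgroup

variable {G : Type*} [Group G]

/-- abelian case, from the Kleitman-Lemke theorem for all finite groups (helper15) -/
lemma blk_of_comm [Finite G] (A : Subgroup G) (hA : ∀ x ∈ A, ∀ y ∈ A, x * y = y * x)
    (L : List G) (hL : ∀ g ∈ L, g ∈ A) (hlen : Nat.card A ≤ L.length) :
    Blk (⊥ : Subgroup G) L := by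
  classical
  obtain ⟨l, hne, hnd, hprod, hw⟩ :=
    Pool.Agent.Lib_helper15.KL.weighted_zero_sum (G := A) (ι := Fin L.length)
      (by rw [Fintype.card_fin]; exact hlen) (fun i => ⟨L[i], hL _ (List.getElem_mem i.isLt)⟩)
  -- sort the indices
  set l' : List (Fin L.length) := l.mergeSort (· ≤ ·) with hl'
  have hperm : l'.Perm l := List.mergeSort_perm l _
  have hsorted : l'.Pairwise (· ≤ ·) := by
    have := List.pairwise_mergeSort (le := fun (a b : Fin L.length) => decide (a ≤ b))
      (by intro a b c; simp only [decide_eq_true_eq]; exact le_trans)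
      (by intro a b; simp only [Bool.or_eq_true, decide_eq_true_eq]; exact le_total a b) l
    simpa using this
  have hnd' : l'.Nodup := hperm.nodup_iff.mpr hnd
  have hlt : l'.Pairwise (· < ·) := by
    have h1 : l'.Pairwise (fun a b => a ≤ b ∧ a ≠ b) := List.pairwise_and_iff.mpr ⟨hsorted, hnd'⟩
    exact h1.imp (fun h => lt_of_le_of_ne h.1 h.2)
  have hpermm : (l'.map (fun i => L[i])).Perm (l.map (fun i => L[i])) := hperm.map _
  refine ⟨l'.map (fun i => L[i]), List.map_getElem_sublist hlt, ?_, ?_, ?_⟩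
  · intro h0
    rw [List.map_eq_nil_iff] at h0
    rw [h0] at hperm
    exact hne (List.Perm.nil_eq hperm).symm
  · rw [Subgroup.mem_bot]
    have hc : (l'.map (fun i => L[i])).Pairwise Commute := by
      rw [List.pairwise_iff_forall_sublist]
      intro a b hab
      have ha : a ∈ l'.map (fun i => L[i]) := hab.subset (by simp)
      have hb : b ∈ l'.map (fun i => L[i]) := hab.subset (by simp)
      obtain ⟨i, _, rfl⟩ := List.mem_map.mp ha
      obtain ⟨j, _, rfl⟩ := List.mem_map.mp hb
      exact hA _ (hL _ (List.getElem_mem i.isLt)) _ (hL _ (List.getElem_mem j.isLt))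
    rw [hpermm.prod_eq' hc]
    have := congrArg (fun z : A => (z : G)) hprod
    simp only [Subgroup.coe_one] at this
    rw [← this]
    have h2 : ∀ l : List (Fin L.length),
        (((l.map (fun i : Fin L.length =>
          (⟨L[i], hL _ (List.getElem_mem i.isLt)⟩ : A))).prod : A) : G)
          = (l.map (fun i : Fin L.length => L[i])).prod := by
      intro l
      induction l with
      | nil => rfl
      | cons a t ih => simp only [List.map_cons, List.prod_cons, Subgroup.coe_mul, ih]
    exact (h2 l).symm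
  · rw [Subgroup.card_bot, Nat.cast_one, mul_one]
    have h3 : wt (l'.map (fun i => L[i])) = wt (l.map (fun i => L[i])) := by
      unfold wt
      exact (hpermm.map _).sum_eq
    rw [h3]
    refine le_trans (le_of_eq ?_) hw
    unfold wt
    rw [List.map_map]
    congr 1
    apply List.map_congr_left
    intro i _
    simp only [Function.comp]
    rw [← Subgroup.orderOf_coe]

/-- an index-ordered light product-one subsequence, for sequences indexed by `Fin m` -/
lemma light_of_blk [Finite G] {m : ℕ} (g : Fin m → G) (h : Blk (⊥ : Subgroup G) (List.ofFn g)) :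
    ∃ K : Finset (Fin m), K.Nonempty ∧ ((K.sort (· ≤ ·)).map g).prod = 1 ∧
      ∑ k ∈ K, (1 : ℚ) / orderOf (g k) ≤ 1 := by
  obtain ⟨K, h1, h2, h3, h4⟩ := h
  obtain ⟨is, rfl, h6⟩ := List.sublist_eq_map_getElem h1
  have hlen : (List.ofFn g).length = m := List.length_ofFn
  set js : List (Fin m) := is.map (Fin.cast hlen) with hjs
  have hK : is.map (fun i => (List.ofFn g)[i]) = js.map g := by
    rw [hjs, List.map_map]
    apply List.map_congr_left
    intro i _
    simp only [Fin.getElem_fin, List.getElem_ofFn, Function.comp]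
    rfl
  have hlt : js.Pairwise (· < ·) := by
    rw [hjs, List.pairwise_map]
    exact h6.imp (fun h => by simpa using h)
  have hnd : js.Nodup := hlt.imp (fun h => ne_of_lt h)
  have hsort : (js.toFinset.sort (· ≤ ·)) = js :=
    (List.toFinset_sort (· ≤ ·) hnd).mpr (hlt.imp (fun h => le_of_lt h))
  rw [hK] at h2 h3 h4
  refine ⟨js.toFinset, ?_, ?_, ?_⟩
  · rw [List.toFinset_nonempty_iff]
    intro h0; rw [h0] at h2; exact h2 rfl
  · rw [hsort]; exact Subgroup.mem_bot.mp h3
  · rw [List.sum_toFinset _ hnd]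
    rw [Subgroup.card_bot, Nat.cast_one, mul_one] at h4
    unfold wt at h4
    rw [List.map_map] at h4
    exact h4

/-- the local factor: product of `p / (p - 1)` over the prime factors `p` of `n` other than the
smallest one -/
noncomputable def kap (n : ℕ) : ℚ :=
  ∏ p ∈ n.primeFactors.erase n.minFac, (p : ℚ) / ((p : ℚ) - 1)

lemma kap_pos (n : ℕ) : 0 < kap n := by
  unfold kap
  apply Finset.prod_pos
  intro p hp
  have h1 : p.Prime := Nat.prime_of_mem_primeFactors (Finset.mem_of_mem_erase hp)
  have h2 : (1:ℚ) < p := by exact_mod_cast h1.one_lt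
  exact div_pos (by linarith) (by linarith)

lemma kap_primePow {n : ℕ} (h : IsPrimePow n) : kap n = 1 := by
  obtain ⟨p, k, hp, hk, rfl⟩ := (isPrimePow_nat_iff n).mp h
  unfold kap
  rw [Nat.primeFactors_prime_pow hk.ne' hp, Nat.Prime.pow_minFac hp hk.ne']
  simp

lemma cost_kap (M : Subgroup G) [Finite G] (hM : M ≠ ⊥) :
    (cost M : ℚ) = (Nat.totient (Nat.card M)) * kap (Nat.card M) := by
  set n := Nat.card M with hn
  have hn1 : n ≠ 1 := by
    intro h0
    apply hM
    exact Subgroup.card_eq_one.mp h0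
  have hn0 : n ≠ 0 := Nat.card_pos.ne'
  have hq : n.minFac.Prime := Nat.minFac_prime hn1
  have hmem : n.minFac ∈ n.primeFactors :=
    Nat.mem_primeFactors.mpr ⟨hq, Nat.minFac_dvd n, hn0⟩
  rw [Nat.totient_eq_mul_prod_factors, ← Finset.mul_prod_erase _ _ hmem, kap]
  rw [mul_assoc, mul_assoc, ← Finset.prod_mul_distrib]
  have h1 : ∏ p ∈ n.primeFactors.erase n.minFac, ((1 - (p:ℚ)⁻¹) * ((p : ℚ) / ((p : ℚ) - 1))) = 1 := by
    apply Finset.prod_eq_one
    intro p hp
    have h1 : p.Prime := Nat.prime_of_mem_primeFactors (Finset.mem_of_mem_erase hp)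
    have h2 : (1:ℚ) < p := by exact_mod_cast h1.one_lt
    have h3 : (p:ℚ) ≠ 0 := by linarith
    have h4 : (p:ℚ) - 1 ≠ 0 := by linarith
    field_simp
  rw [h1, mul_one]
  unfold cost
  rw [← hn]
  have h5 : n / n.minFac ≤ n := Nat.div_le_self _ _
  rw [Nat.cast_sub h5]
  have h6 : ((n / n.minFac : ℕ) : ℚ) = n / n.minFac := by
    rw [Nat.cast_div (Nat.minFac_dvd n)]
    exact_mod_cast hq.ne_zero
  rw [h6]
  ring

lemma card_fiber (C : Subgroup G) [Fintype G] [DecidableEq (Subgroup G)] (hC : IsCyclic C) :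
    Nat.totient (Nat.card C) ≤
      (Finset.univ.filter (fun x : G => Subgroup.zpowers x = C)).card := by
  classical
  have : Fintype C := Fintype.ofFinite C
  have h2 := IsCyclic.card_orderOf_eq_totient (α := C) (d := Nat.card C)
    (by rw [Nat.card_eq_fintype_card])
  rw [← h2]
  refine Finset.card_le_card_of_injOn (fun x : C => (x : G)) ?_ ?_
  · intro x hx
    rw [Finset.mem_coe, Finset.mem_filter] at hx ⊢
    refine ⟨Finset.mem_univ _, ?_⟩
    apply Subgroup.eq_of_le_of_card_ge
    · rw [Subgroup.zpowers_le]; exact x.2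
    · rw [Nat.card_zpowers, Subgroup.orderOf_coe]; exact hx.2.ge
  · intro x _ y _ hxy
    exact Subtype.ext hxy

/-- hypotheses on the family of abelian subgroups -/
structure Adm (𝓐 : Finset (Subgroup G)) : Prop where
  comm : ∀ A ∈ 𝓐, ∀ x ∈ A, ∀ y ∈ A, x * y = y * x
  disj : ∀ A ∈ 𝓐, ∀ B ∈ 𝓐, A ≠ B → A ⊓ B = ⊥
  pow : ∀ x : G, (∀ A ∈ 𝓐, x ∉ A) → ∀ k : ℕ, (∃ A ∈ 𝓐, x ^ k ∈ A) → x ^ k = 1

open Classical in
/-- the length bound -/
noncomputable def bound [Fintype G] (𝓐 : Finset (Subgroup G)) : ℚ :=
  1 + ∑ A ∈ 𝓐, ((Nat.card A : ℚ) - 1) +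
    ∑ x ∈ Finset.univ.filter (fun x : G => x ≠ 1 ∧ ∀ A ∈ 𝓐, x ∉ A), kap (orderOf x)

theorem main_list [Fintype G] {𝓐 : Finset (Subgroup G)} (h : Adm 𝓐) (L : List G)
    (hL : bound 𝓐 ≤ L.length) : Blk (⊥ : Subgroup G) L := by
  classical
  by_contra hB
  have hno1 : ∀ g ∈ L, g ≠ 1 := by
    intro g hg h1
    apply hB
    apply blk_of_mem hg
    rw [h1, Subgroup.zpowers_one_eq_bot]
  -- the family F
  let F : Set (Subgroup G) := {M | M = ⊥ ∨ ∀ A ∈ 𝓐, ¬ M ≤ A}
  have hF : DownClosed F := by
    intro C D hCD hC hD hDF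
    rcases hDF with hDF | hDF
    · exact absurd (le_bot_iff.mp (hDF ▸ hCD)) hC
    · right
      intro A hA hCA
      obtain ⟨⟨d, hd⟩, hgen⟩ := hD.exists_generator
      have hdA : ∀ A ∈ 𝓐, d ∉ A := by
        intro A hA hdA
        apply hDF A hA
        intro y hy
        obtain ⟨k, hk⟩ := Subgroup.mem_zpowers_iff.mp (hgen ⟨y, hy⟩)
        have : d ^ k = y := by
          have := congrArg (fun z : D => (z : G)) hk
          simpa using this
        rw [← this]; exact A.zpow_mem hdA k
      apply hC
      rw [Subgroup.eq_bot_iff_forall]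
      intro c hc
      obtain ⟨k, hk⟩ := (Submonoid.mem_powers_iff _ _).mp
        ((mem_powers_iff_mem_zpowers).mpr (hgen ⟨c, hCD hc⟩))
      have hk' : d ^ k = c := by
        have := congrArg (fun z : D => (z : G)) hk
        simpa using this
      rw [← hk']
      apply h.pow d hdA k
      exact ⟨A, hA, by rw [hk']; exact hCA hc⟩
  have hbot : (⊥ : Subgroup G) ∈ F := Or.inl rfl
  -- the outside part
  have hout : (L.filter (fun g => ∀ A ∈ 𝓐, g ∉ A)).length ≤ Om F (⊥ : Subgroup G) := by
    apply list_bound F hF hbot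
    · intro g hg
      have hg' := (List.mem_filter.mp hg).2
      simp only [decide_eq_true_eq] at hg'
      right
      intro A hA hle
      exact hg' A hA (hle (Subgroup.mem_zpowers g))
    · intro hb
      exact hB (hb.mono List.filter_sublist)
  -- the abelian parts
  have hin : ∀ A ∈ 𝓐, ((L.filter (fun g => g ∈ A)).length : ℚ) ≤ (Nat.card A : ℚ) - 1 := by
    intro A hA
    have h1 : (L.filter (fun g => g ∈ A)).length < Nat.card A := by
      by_contra hcon
      push Not at hcon
      apply hB
      refine Blk.mono (blk_of_comm A (h.comm A hA) (L.filter (fun g => g ∈ A)) ?_ hcon)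
        List.filter_sublist
      intro g hg
      simpa using (List.mem_filter.mp hg).2
    have h2 : ((L.filter (fun g => g ∈ A)).length : ℚ) + 1 ≤ (Nat.card A : ℚ) := by
      exact_mod_cast h1
    linarith
  -- splitting the length
  have hsplit : L.length ≤ (L.filter (fun g => ∀ A ∈ 𝓐, g ∉ A)).length +
      ∑ A ∈ 𝓐, (L.filter (fun g => g ∈ A)).length := by
    clear hL hB hno1 hout hin
    induction L with
    | nil => simp
    | cons g L ih =>
      by_cases hg : ∀ A ∈ 𝓐, g ∉ A
      · rw [List.filter_cons_of_pos (by simpa using hg)]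
        have h1 : ∑ A ∈ 𝓐, ((g :: L).filter (fun g => g ∈ A)).length =
            ∑ A ∈ 𝓐, (L.filter (fun g => g ∈ A)).length := by
          apply Finset.sum_congr rfl
          intro A hA
          rw [List.filter_cons_of_neg (by simpa using hg A hA)]
        rw [h1, List.length_cons, List.length_cons]
        omega
      · push Not at hg
        obtain ⟨A0, hA0, hgA0⟩ := hg
        have h1 : ∑ A ∈ 𝓐, (L.filter (fun g => g ∈ A)).length + 1 ≤
            ∑ A ∈ 𝓐, ((g :: L).filter (fun g => g ∈ A)).length := by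
          rw [← Finset.sum_erase_add _ _ hA0, ← Finset.sum_erase_add _ _ hA0]
          rw [List.filter_cons_of_pos (a := g) (l := L) (p := fun g => decide (g ∈ A0)) (by simpa using hgA0), List.length_cons]
          have : ∑ A ∈ 𝓐.erase A0, (L.filter (fun g => g ∈ A)).length ≤
              ∑ A ∈ 𝓐.erase A0, ((g :: L).filter (fun g => g ∈ A)).length := by
            apply Finset.sum_le_sum
            intro A _
            exact ((List.sublist_cons_self g L).filter _).length_le
          omega
        have h2 : (L.filter (fun g => ∀ A ∈ 𝓐, g ∉ A)).length ≤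
            ((g :: L).filter (fun g => ∀ A ∈ 𝓐, g ∉ A)).length :=
          ((List.sublist_cons_self g L).filter _).length_le
        rw [List.length_cons]
        omega
  -- the outside cost in terms of elements
  have hOm : (Om F (⊥ : Subgroup G) : ℚ) ≤
      ∑ x ∈ Finset.univ.filter (fun x : G => x ≠ 1 ∧ ∀ A ∈ 𝓐, x ∉ A), kap (orderOf x) := by
    have hcost0 : cost (⊥ : Subgroup G) = 0 := by
      simp [cost]
    have h0 : Om F (⊥ : Subgroup G) = ∑ M ∈ (tree F (⊥ : Subgroup G)).erase ⊥, cost M := by
      unfold Om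
      rw [← Finset.sum_erase_add _ _ (self_mem_tree F (by infer_instance) hbot), hcost0, add_zero]
    rw [h0]
    push_cast
    calc ∑ M ∈ (tree F (⊥ : Subgroup G)).erase ⊥, (cost M : ℚ)
        ≤ ∑ M ∈ (tree F (⊥ : Subgroup G)).erase ⊥,
          ∑ x ∈ Finset.univ.filter (fun x : G => Subgroup.zpowers x = M), kap (orderOf x) := by
          apply Finset.sum_le_sum
          intro M hM
          have hM' := Finset.mem_erase.mp hM
          have hMc := ((mem_tree F).mp hM'.2).1
          rw [cost_kap M hM'.1]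
          have h1 : ∀ x ∈ Finset.univ.filter (fun x : G => Subgroup.zpowers x = M),
              kap (orderOf x) = kap (Nat.card M) := by
            intro x hx
            rw [← (Finset.mem_filter.mp hx).2, Nat.card_zpowers]
          rw [Finset.sum_congr rfl h1, Finset.sum_const, nsmul_eq_mul]
          apply mul_le_mul_of_nonneg_right _ (kap_pos _).le
          exact_mod_cast card_fiber M hMc
      _ = ∑ x ∈ ((tree F (⊥ : Subgroup G)).erase ⊥).biUnion
            (fun M => Finset.univ.filter (fun x : G => Subgroup.zpowers x = M)),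
            kap (orderOf x) := by
          rw [Finset.sum_biUnion]
          intro C _ C' _ hne
          rw [Function.onFun, Finset.disjoint_left]
          intro x hx hx'
          exact hne ((Finset.mem_filter.mp hx).2.symm.trans (Finset.mem_filter.mp hx').2)
      _ ≤ _ := by
          apply Finset.sum_le_sum_of_subset_of_nonneg
          · intro x hx
            obtain ⟨M, hM, hxM⟩ := Finset.mem_biUnion.mp hx
            have hM' := Finset.mem_erase.mp hM
            have hMF := ((mem_tree F).mp hM'.2).2.2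
            have hxM' := (Finset.mem_filter.mp hxM).2
            refine Finset.mem_filter.mpr ⟨Finset.mem_univ _, ?_, ?_⟩
            · intro h1
              apply hM'.1
              rw [← hxM', h1, Subgroup.zpowers_one_eq_bot]
            · intro A hA hxA
              rcases hMF with hMF | hMF
              · exact hM'.1 hMF
              · apply hMF A hA
                rw [← hxM', Subgroup.zpowers_le]; exact hxA
          · intro x _ _
            exact (kap_pos _).le
  have hfin : (L.length : ℚ) ≤ ∑ x ∈ Finset.univ.filter (fun x : G => x ≠ 1 ∧ ∀ A ∈ 𝓐, x ∉ A),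
      kap (orderOf x) + ∑ A ∈ 𝓐, ((Nat.card A : ℚ) - 1) := by
    have h1 : (L.length : ℚ) ≤ ((L.filter (fun g => ∀ A ∈ 𝓐, g ∉ A)).length : ℚ) +
      ∑ A ∈ 𝓐, ((L.filter (fun g => g ∈ A)).length : ℚ) := by exact_mod_cast hsplit
    have h2 : ((L.filter (fun g => ∀ A ∈ 𝓐, g ∉ A)).length : ℚ) ≤ (Om F (⊥ : Subgroup G) : ℚ) := by
      exact_mod_cast hout
    have h3 := Finset.sum_le_sum hin
    linarith
  unfold bound at hL
  linarith

/-- if all elements outside the abelian subgroups have prime power order then the bound is `|G|` -/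
theorem bound_le [Fintype G] {𝓐 : Finset (Subgroup G)} (h : Adm 𝓐)
    (hp : ∀ x : G, x ≠ 1 → (∀ A ∈ 𝓐, x ∉ A) → IsPrimePow (orderOf x)) :
    bound 𝓐 ≤ Nat.card G := by
  classical
  unfold bound
  have h1 : ∀ x ∈ Finset.univ.filter (fun x : G => x ≠ 1 ∧ ∀ A ∈ 𝓐, x ∉ A),
      kap (orderOf x) = 1 := by
    intro x hx
    have := (Finset.mem_filter.mp hx).2
    exact kap_primePow (hp x this.1 this.2)
  rw [Finset.sum_congr rfl h1, Finset.sum_const, nsmul_eq_mul, mul_one]
  have h2 : ∀ A ∈ 𝓐, ((Nat.card A : ℚ) - 1) =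
      ((Finset.univ.filter (fun x : G => x ≠ 1 ∧ x ∈ A)).card : ℚ) := by
    intro A _
    have h3 : Nat.card A = (Finset.univ.filter (fun x : G => x ∈ A)).card := by
      rw [Nat.card_eq_fintype_card, Fintype.card_subtype]
    have h4 : Finset.univ.filter (fun x : G => x ≠ 1 ∧ x ∈ A) =
        (Finset.univ.filter (fun x : G => x ∈ A)).erase 1 := by
      ext x; simp
    rw [h4, Finset.card_erase_of_mem (by simp [A.one_mem]), ← h3]
    rw [Nat.cast_sub Nat.card_pos, Nat.cast_one]
  rw [Finset.sum_congr rfl h2]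
  have h5 : (∑ A ∈ 𝓐, ((Finset.univ.filter (fun x : G => x ≠ 1 ∧ x ∈ A)).card)) =
      (𝓐.biUnion (fun A => Finset.univ.filter (fun x : G => x ≠ 1 ∧ x ∈ A))).card := by
    rw [Finset.card_biUnion]
    intro A hA B hB hne
    rw [Function.onFun, Finset.disjoint_left]
    intro x hx hx'
    have e1 := (Finset.mem_filter.mp hx).2
    have e2 := (Finset.mem_filter.mp hx').2
    have : x ∈ A ⊓ B := ⟨e1.2, e2.2⟩
    rw [h.disj A hA B hB hne] at this
    exact e1.1 (Subgroup.mem_bot.mp this)
  have h6 : Disjoint (𝓐.biUnion (fun A => Finset.univ.filter (fun x : G => x ≠ 1 ∧ x ∈ A)))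
      (Finset.univ.filter (fun x : G => x ≠ 1 ∧ ∀ A ∈ 𝓐, x ∉ A)) := by
    rw [Finset.disjoint_left]
    intro x hx hx'
    obtain ⟨A, hA, hxA⟩ := Finset.mem_biUnion.mp hx
    exact (Finset.mem_filter.mp hx').2.2 A hA (Finset.mem_filter.mp hxA).2.2
  have h7 : (𝓐.biUnion (fun A => Finset.univ.filter (fun x : G => x ≠ 1 ∧ x ∈ A))) ∪
      (Finset.univ.filter (fun x : G => x ≠ 1 ∧ ∀ A ∈ 𝓐, x ∉ A)) ⊆
      (Finset.univ : Finset G).erase 1 := by
    intro x hx
    rw [Finset.mem_erase]
    rcases Finset.mem_union.mp hx with h8 | h8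
    · obtain ⟨A, _, hxA⟩ := Finset.mem_biUnion.mp h8
      exact ⟨(Finset.mem_filter.mp hxA).2.1, Finset.mem_univ _⟩
    · exact ⟨(Finset.mem_filter.mp h8).2.1, Finset.mem_univ _⟩
  have h8 := Finset.card_le_card h7
  rw [Finset.card_union_of_disjoint h6, ← h5, Finset.card_erase_of_mem (Finset.mem_univ _),
    Finset.card_univ] at h8
  have h9 : 0 < Fintype.card G := Fintype.card_pos
  rw [Nat.card_eq_fintype_card]
  have h10 : 1 + ∑ A ∈ 𝓐, ((Finset.univ.filter (fun x : G => x ≠ 1 ∧ x ∈ A)).card) +
      (Finset.univ.filter (fun x : G => x ≠ 1 ∧ ∀ A ∈ 𝓐, x ∉ A)).card ≤ Fintype.card G := by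
    omega
  exact_mod_cast h10

end Pool.Agent.Lib_helper83.ORD
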